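import Pool.Agent.U427.PF.Pair

/-!
# Quadratic twists: the Lindelöf bound near the central point and the number of the zeros of the heat flow

`S` is a set of pairs `(π, d)`, `d ≥ 1`: for instance `d = |D|_{S_∞} = |N(D)|` and `L(s, π)` the L-function of
`π_0 ⊗ χ_D`, where `π_0` is a fixed cuspidal representation of `PGL_2(𝔸_F)` and `D` runs through the square-free
elements of `𝓞_F`.  The conductors `q(π)` are then of the order `d²` and the archimedean parameters are bounded
(`IsTwists S`).  `Λ(s, π)` is the completed L-function, `ξ_π(s) = q(π)^(s/2) Λ(s, π)` and `ξ_τ = e^{τ D²} ξ_π` (`D =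
d/ds`) is its heat flow.  By de Bruijn's theorem the zeros of `ξ_τ` move to the line `Re s = 1/2` as `τ` grows.
There are about `(2R/π) log d` zeros with `|Im s| ≤ R`.

* `Size S r a`: `L(1/2 + r + it, π) ≪ d^(a + ε)` for all `ε > 0`, uniformly for `(π, d) ∈ S` and bounded `t`.
  `Size S 0 0` is the Lindelöf bound near the central point; it contains the bound `L(1/2, π) ≪ d^β`, for every
  `β > 0`, of the problem.
* `FewZeros S κ`: for all `δ, ε > 0` and `X`, `R` and large `d`: if `κ + ε ≤ 2 τ log d ≤ X` then at most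
  `ε log d` zeros `z` of `ξ_τ` (with multiplicity) satisfy `Re z ≥ 1/2 + δ`, `|Im z| ≤ R` (by the functional
  equation the same holds on the left of the line).

Theorem.  For every such set `S`:

1. `FewZeros S 1` holds (unconditionally);
2. for `κ > 0`, `FewZeros S κ` is equivalent to `Size S r (max(κ - r, 0)² / (2 κ))` for all `0 ≤ r ≤ 1/2`;
3. `FewZeros S 0` is equivalent to the Lindelöf bound near the central point, `Size S 0 0`;
4. `Size S 0 a` implies `FewZeros S (1 / (2 - 2 a))`, for `0 ≤ a ≤ 1/2`, and `FewZeros S κ` implies `Size S 0 (κ/2)`;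
5. a bound `L(1/2 + it, π) ≪ d^(1/2 - δ)`, `δ > 0`, (for the twists it is known: Michel and Venkatesh) is
   equivalent to `FewZeros S κ` for some `κ < 1`;
6. in particular, if `FewZeros S 0` then `L(1/2, π) ≪ d^β` for all `β > 0`: Q1 for the family; and
   `FewZeros S κ` implies `L(1/2, π) ≪ d^(κ/2 + ε)`.

So by 5. and Michel-Venkatesh the twists of a fixed `π_0` satisfy `FewZeros S κ` for some `κ < 1`, and the
question how far `κ` can be lowered is the question for the exponent of `|D|`: the exponent `κ / 2` corresponds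
to `κ`.  Only zeros at bounded height are concerned.  The starting result `MP_52e316_nt.HeatFlowZeroCount` is
an analogous equivalence for the bounds and the zeros at all heights; the local version is new, see
`Pool.Agent.U427.PF.Pair`.
-/

set_option autoImplicit false

open Complex
open scoped ComplexConjugate

namespace Pool.Agent.Results.MP_21d687_nt.HeatFlowNearCentre

/-- Analytic data of an L-function of degree `n` over `ℚ` with the properties of the L-functions of unitary cuspidal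
automorphic representations; for `π ⊗ χ_D`, `π` a cuspidal representation of `PGL_2(𝔸_F)`, the degree is
`n = 2 [F : ℚ]`.  Conductor `q`, archimedean parameters `μ_j` with
`Re μ_j ≥ -1/2` (the gamma factor is `∏ Γ_ℝ(s + μ_j)`), Satake parameters `|α_j(p)| ≤ √p`, root number `ε`,
and the entire completed L-function `Λ` (gamma factor times Euler product for `Re s > 3/2`) with the
functional equation, finite order in vertical strips and no zeros in `Re s > 1` (all known:
Godement-Jacquet, Jacquet-Shalika). -/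
structure CuspidalL (n : ℕ) where
  /-- the conductor -/
  q : ℝ
  /-- the archimedean parameters -/
  μ : Fin n → ℂ
  /-- the Satake parameters -/
  α : Fin n → ℕ → ℂ
  /-- the root number -/
  ε : ℂ
  /-- the completed L-function -/
  Λ : ℂ → ℂ
  one_le : 1 ≤ q
  le_re : ∀ j, -(1 / 2) ≤ (μ j).re
  norm_le : ∀ j, ∀ p : ℕ, p.Prime → ‖α j p‖ ≤ Real.sqrt p
  norm_eq : ‖ε‖ = 1
  entire : Differentiable ℂ Λ
  euler : ∀ s : ℂ, 3 / 2 < s.re → Λ s = (∏ j, Gammaℝ (s + μ j)) *
    ∏' p : Nat.Primes, ∏ j, (1 - α j p * (p : ℂ) ^ (-s))⁻¹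
  fe : ∀ s : ℂ, Λ s = ε * (q : ℂ) ^ (1 / 2 - s) * conj (Λ (1 - conj s))
  bdd : ∀ a b : ℝ, ∃ M, ∀ s : ℂ, a ≤ s.re → s.re ≤ b → ‖Λ s‖ ≤ Real.exp (M * (1 + |s.im|))
  ne_zero : ∀ s : ℂ, 1 < s.re → Λ s ≠ 0

variable {n : ℕ}

/-- The L-function `L(s, π) = Λ(s, π) / ∏ Γ_ℝ(s + μ_j)` (without the archimedean factors). -/
noncomputable def L (π : CuspidalL n) (s : ℂ) : ℂ := π.Λ s * ∏ j, (Gammaℝ (s + π.μ j))⁻¹

/-- `ξ_π(s) = q^(s/2) Λ(s, π)`. -/
noncomputable def xi (π : CuspidalL n) (s : ℂ) : ℂ := (π.q : ℂ) ^ (s / 2) * π.Λ s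

/-- The heat flow `e^{τ D²} F` (`D = d/ds`) as a Gaussian average:
`π^(-1/2) ∫ exp (-v²) F(s + 2 √τ v) dv`. -/
noncomputable def heat (τ : ℝ) (F : ℂ → ℂ) (s : ℂ) : ℂ :=
  ((1 / Real.sqrt Real.pi : ℝ) : ℂ) *
    ∫ v : ℝ, ((Real.exp (-v ^ 2) : ℝ) : ℂ) * F (s + ((2 * Real.sqrt τ * v : ℝ) : ℂ))

/-- The properties of the pairs (`π = π_0 ⊗ χ_D`, `d = |N(D)|`), `π_0` fixed, `D` square-free: the conductor is
of the order `d²` and the archimedean parameters are bounded. -/
def IsTwists (S : Set (CuspidalL n × ℝ)) : Prop :=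
  ∃ c C A : ℝ, 0 < c ∧ ∀ π : CuspidalL n, ∀ d : ℝ, (π, d) ∈ S →
    1 ≤ d ∧ c * d ^ 2 ≤ π.q ∧ π.q ≤ C * d ^ 2 ∧ ∀ j, ‖π.μ j‖ ≤ A

/-- `L(1/2 + r + it, π) ≪ d^(a + ε)` for every `ε > 0`, uniformly for `(π, d) ∈ S` and bounded `t`. -/
def Size (S : Set (CuspidalL n × ℝ)) (r a : ℝ) : Prop :=
  ∀ ε R : ℝ, 0 < ε → ∃ B : ℝ, ∀ (π : CuspidalL n) (d : ℝ), (π, d) ∈ S → ∀ t : ℝ, |t| ≤ R →
    ‖L π (1 / 2 + (r : ℂ) + (t : ℂ) * I)‖ ≤ B * d ^ (a + ε)

/-- `F` has at most `c` zeros in `A`, counted with multiplicity. -/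
def AtMost (F : ℂ → ℂ) (A : Set ℂ) (c : ℝ) : Prop :=
  ∀ S : Finset ℂ, (∀ z ∈ S, F z = 0 ∧ z ∈ A) → ∑ z ∈ S, (analyticOrderNatAt F z : ℝ) ≤ c

/-- At the times `(κ + ε) / (2 log d) ≤ τ ≤ X / (2 log d)` the heat flow `e^{τ D²} ξ_π` has at most `ε log d`
zeros at distance at least `δ` from the critical line and with `|Im z| ≤ R`, for large `d`. -/
def FewZeros (S : Set (CuspidalL n × ℝ)) (κ : ℝ) : Prop :=
  ∀ δ ε X R : ℝ, 0 < δ → 0 < ε → ∃ D : ℝ, ∀ (π : CuspidalL n) (d : ℝ), (π, d) ∈ S → D ≤ d →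
    ∀ τ : ℝ, 0 < τ → κ + ε ≤ 2 * τ * Real.log d → 2 * τ * Real.log d ≤ X →
      AtMost (heat τ (xi π)) {z : ℂ | 1 / 2 + δ ≤ z.re ∧ |z.im| ≤ R} (ε * Real.log d)

open Pool.Agent.W169.HF Pool.Agent.U427.PF

lemma std (π : CuspidalL n) : Std π.q (fun j => -π.μ j) π.α π.ε π.Λ :=
  ⟨{ one_le := π.one_le
     re_le := fun j => by have := π.le_re j; simp only [neg_re]; linarith
     norm_le := fun j p hp => by
       rw [← Real.sqrt_eq_rpow]
       exact π.norm_le j p hp
     norm_eq := π.norm_eq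
     entire := π.entire
     euler := fun s hs => by
       simp only [sub_neg_eq_add]
       exact π.euler s (by linarith)
     fe := π.fe
     bdd := π.bdd }, π.ne_zero⟩

/-- the class of pairs (L-function, height `0`) -/
def cls (S : Set (CuspidalL n × ℝ)) : Cls2 n := fun N μ α e Λ y => y = 0 ∧
  ∃ (π : CuspidalL n) (d : ℝ), (π, d) ∈ S ∧ π.q = N ∧ (fun j => -π.μ j) = μ ∧ π.α = α ∧ π.ε = e ∧
    π.Λ = Λ

/-- the conductor of the library -/
noncomputable def cc (π : CuspidalL n) (y : ℝ) : ℝ := cnd π.q (fun j => -π.μ j) y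

lemma cc_one (π : CuspidalL n) (y : ℝ) : 1 ≤ cc π y := cnd_pos π.one_le _ y

lemma LL_eq (π : CuspidalL n) (s : ℂ) : LL (fun j => -π.μ j) π.Λ s = L π s := by
  simp only [LL, L, sub_neg_eq_add]

/-- the conductors are of the order `d²` at bounded height -/
lemma log_cmp {S : Set (CuspidalL n × ℝ)} (hS : IsTwists S) (R : ℝ) : ∃ K : ℝ, 0 ≤ K ∧
    ∀ (π : CuspidalL n) (d : ℝ), (π, d) ∈ S → ∀ v : ℝ, |v| ≤ R →
      Real.log (cc π v) ≤ 2 * Real.log d + K ∧ 2 * Real.log d ≤ Real.log (cc π v) + K := by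
  obtain ⟨c, C, A, hc, H⟩ := hS
  refine ⟨|Real.log c| + |Real.log (max C 1)| + n * Real.log (1 + (|R| + |A|)), ?_, ?_⟩
  · have h1 := Real.log_nonneg (show (1 : ℝ) ≤ 1 + (|R| + |A|) by
      linarith [abs_nonneg R, abs_nonneg A])
    have h2 := mul_nonneg (Nat.cast_nonneg (α := ℝ) n) h1
    have h3 := abs_nonneg (Real.log c)
    have h4 := abs_nonneg (Real.log (max C 1))
    linarith
  intro π d hd v hv
  obtain ⟨h1, h2, h3, h4⟩ := H π d hd
  have hq := π.one_le
  have hN : 0 ≤ (n : ℝ) * Real.log (1 + (|R| + |A|)) :=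
    mul_nonneg (Nat.cast_nonneg n) (Real.log_nonneg (by linarith [abs_nonneg R, abs_nonneg A]))
  have hlow : Real.log π.q ≤ Real.log (cc π v) :=
    Real.log_le_log (by linarith) (le_cnd π.one_le _ v)
  have hup : Real.log (cc π v) ≤ Real.log π.q + n * Real.log (1 + (|R| + |A|)) := by
    have h5 : cc π v ≤ π.q * (1 + (|R| + |A|)) ^ n := by
      unfold cc cnd
      apply mul_le_mul_of_nonneg_left _ (by linarith)
      have h6 : ∏ j, (1 + ‖(v : ℂ) * I - (fun j => -π.μ j) j‖) ≤ ∏ _j : Fin n, (1 + (|R| + |A|)) := by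
        apply Finset.prod_le_prod (fun j _ => by positivity)
        intro j _
        have h7 : ‖(v : ℂ) * I - -π.μ j‖ ≤ |v| + ‖π.μ j‖ := by
          rw [sub_neg_eq_add]
          refine (norm_add_le _ _).trans ?_
          rw [norm_mul, Complex.norm_real, Complex.norm_I, mul_one, Real.norm_eq_abs]
        have h8 := h4 j
        have h9 := le_abs_self R
        have h10 := le_abs_self A
        simp only
        linarith
      rwa [Finset.prod_const, Finset.card_univ, Fintype.card_fin] at h6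
    have h6 := Real.log_le_log (by linarith [cc_one π v]) h5
    rw [Real.log_mul (by linarith) (by positivity), Real.log_pow] at h6
    exact h6
  have hd0 : 0 < d := by linarith
  have hcd : Real.log c + 2 * Real.log d ≤ Real.log π.q := by
    have h5 := Real.log_le_log (by positivity) h2
    rw [Real.log_mul hc.ne' (by positivity), Real.log_pow] at h5
    exact_mod_cast h5
  have hCd : Real.log π.q ≤ Real.log (max C 1) + 2 * Real.log d := by
    have hC : 0 < max C 1 := lt_max_of_lt_right one_pos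
    have h5 : π.q ≤ max C 1 * d ^ 2 := h3.trans (by gcongr; exact le_max_left _ _)
    have h6 := Real.log_le_log (by linarith) h5
    rw [Real.log_mul hC.ne' (by positivity), Real.log_pow] at h6
    exact_mod_cast h6
  have e1 := neg_abs_le (Real.log c)
  have e2 := le_abs_self (Real.log (max C 1))
  have e3 := abs_nonneg (Real.log c)
  have e4 := abs_nonneg (Real.log (max C 1))
  constructor <;> linarith

lemma rpow_exp {x : ℝ} (hx : 1 ≤ x) (a : ℝ) : x ^ a = Real.exp (a * Real.log x) := by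
  rw [Real.rpow_def_of_pos (by linarith), mul_comm]

lemma size_iff {S : Set (CuspidalL n × ℝ)} (hS : IsTwists S) (r a : ℝ) :
    Size S r (2 * a) ↔ PEr (cls S) r a := by
  constructor
  · intro h ε R hε
    obtain ⟨B, HB⟩ := h (2 * ε) |R| (by positivity)
    obtain ⟨K, hK, HK⟩ := log_cmp hS |R|
    refine ⟨Real.log (max B 1) + |a + ε| * K, ?_⟩
    rintro N μ α e Λ y ⟨rfl, π, d, hP, rfl, rfl, rfl, rfl, rfl⟩ _ v hv
    have hB : 0 < max B 1 := lt_max_of_lt_right one_pos
    rw [zero_add, LL_eq]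
    have h1 := HB π d hP v (hv.trans (le_abs_self R))
    refine h1.trans ?_
    obtain ⟨c, C, A, hc, H⟩ := hS
    rw [rpow_exp (H π d hP).1]
    obtain ⟨h2, h3⟩ := HK π d hP v (hv.trans (le_abs_self R))
    have h4 : (2 * a + 2 * ε) * Real.log d ≤ |a + ε| * K + (a + ε) * Real.log (cc π v) := by
      have h5 : |2 * Real.log d - Real.log (cc π v)| ≤ K := by
        rw [abs_le]; constructor <;> linarith
      have h6 := mul_le_mul_of_nonneg_left h5 (abs_nonneg (a + ε))
      rw [← abs_mul] at h6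
      have h7 := (le_abs_self _).trans h6
      linarith
    calc B * Real.exp ((2 * a + 2 * ε) * Real.log d)
        ≤ max B 1 * Real.exp (|a + ε| * K + (a + ε) * Real.log (cc π v)) :=
          mul_le_mul (le_max_left _ _) (Real.exp_le_exp.2 h4) (Real.exp_pos _).le hB.le
      _ = Real.exp (Real.log (max B 1) + |a + ε| * K + (a + ε) * Real.log (cc π v)) := by
          rw [show Real.log (max B 1) + |a + ε| * K + (a + ε) * Real.log (cc π v) =
            Real.log (max B 1) + (|a + ε| * K + (a + ε) * Real.log (cc π v)) by ring,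
            Real.exp_add (Real.log (max B 1)), Real.exp_log hB]
  · intro h ε R hε
    obtain ⟨B, HB⟩ := h (ε / 2) |R| (by positivity)
    obtain ⟨K, hK, HK⟩ := log_cmp hS |R|
    refine ⟨Real.exp (B + |a + ε / 2| * K), fun π d hP t ht => ?_⟩
    have h1 := HB π.q (fun j => -π.μ j) π.α π.ε π.Λ 0 ⟨rfl, π, d, hP, rfl, rfl, rfl, rfl, rfl⟩ (std π) t
      (ht.trans (le_abs_self R))
    rw [LL_eq, zero_add] at h1
    refine h1.trans ?_
    obtain ⟨c, C, A, hc, H⟩ := hS
    rw [rpow_exp (H π d hP).1, ← Real.exp_add]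
    apply Real.exp_le_exp.2
    obtain ⟨h2, h3⟩ := HK π d hP t (ht.trans (le_abs_self R))
    change B + (a + ε / 2) * Real.log (cc π t) ≤ _
    have h5 : |Real.log (cc π t) - 2 * Real.log d| ≤ K := by
      rw [abs_le]; constructor <;> linarith
    have h6 := mul_le_mul_of_nonneg_left h5 (abs_nonneg (a + ε / 2))
    rw [← abs_mul] at h6
    have h7 := (le_abs_self _).trans h6
    linarith

lemma few_iff {S : Set (CuspidalL n × ℝ)} (hS : IsTwists S) {κ : ℝ} (hκ : 0 ≤ κ) :
    FewZeros S κ ↔ ∀ κ' : ℝ, κ < κ' → PF (cls S) κ' := by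
  constructor
  · intro h κ' hκ' δ ε X R hδ hε
    obtain ⟨η, hη⟩ : ∃ η : ℝ, η = min ε ((κ' - κ) / 2) := ⟨_, rfl⟩
    have hη0 : 0 < η := by rw [hη]; exact lt_min (by positivity) (by linarith)
    have hη1 : η ≤ ε := by rw [hη]; exact min_le_left _ _
    have hη2 : η ≤ (κ' - κ) / 2 := by rw [hη]; exact min_le_right _ _
    obtain ⟨C, H⟩ := h δ η (X + 1) (|R| + 1) hδ hη0
    obtain ⟨K, hK, HK⟩ := log_cmp hS |R|
    obtain ⟨ρ, hρ⟩ : ∃ ρ : ℝ, ρ = min ((κ' - κ) / 2) 1 := ⟨_, rfl⟩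
    have hρ0 : 0 < ρ := by rw [hρ]; exact lt_min (by linarith) one_pos
    have hρ1 : ρ ≤ (κ' - κ) / 2 := by rw [hρ]; exact min_le_left _ _
    have hρ2 : ρ ≤ 1 := by rw [hρ]; exact min_le_right _ _
    refine ⟨Real.exp (|X| * K / ρ + K + 1 + 2 * |Real.log (max C 1)|), ?_⟩
    rintro N μ α e Λ y ⟨rfl, π, d, hP, rfl, rfl, rfl, rfl, rfl⟩ _ t v ht hv hC h1 h2
    rw [zero_add] at hC h1 h2 ⊢
    change _ ≤ cc π v at hC
    change κ' ≤ t * Real.log (cc π v) at h1
    change t * Real.log (cc π v) ≤ X at h2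
    obtain ⟨hc1, hc2⟩ := HK π d hP v (hv.trans (le_abs_self R))
    have hL : |X| * K / ρ + K + 1 + 2 * |Real.log (max C 1)| ≤ Real.log (cc π v) := by
      have := Real.log_le_log (Real.exp_pos _) hC
      rwa [Real.log_exp] at this
    have h0 : 0 ≤ |X| * K / ρ := by positivity
    have h00 := abs_nonneg (Real.log (max C 1))
    have hL0 : 0 < Real.log (cc π v) := by linarith
    have htr : t * K ≤ ρ := by
      have h3 : t * (|X| * K) ≤ t * (ρ * Real.log (cc π v)) := by
        apply mul_le_mul_of_nonneg_left _ ht.le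
        have h4 : |X| * K / ρ ≤ Real.log (cc π v) := by linarith
        rw [div_le_iff₀ hρ0] at h4
        linarith
      have h4 : t * (ρ * Real.log (cc π v)) ≤ |X| * ρ := by
        have := mul_le_mul_of_nonneg_right (h2.trans (le_abs_self X)) hρ0.le
        linarith
      have hX : 0 < |X| := by
        have : 0 < X := by linarith
        exact abs_pos.2 this.ne'
      have h5 : |X| * (t * K) ≤ |X| * ρ := by linarith
      exact le_of_mul_le_mul_left h5 hX
    have hd1 : 1 ≤ d := by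
      obtain ⟨c, C', A, hc, H'⟩ := hS
      exact (H' π d hP).1
    have hCd : C ≤ d := by
      have h3 : Real.log (max C 1) ≤ Real.log d := by
        have := le_abs_self (Real.log (max C 1))
        linarith
      have hm1 : 0 < max C 1 := lt_max_of_lt_right one_pos
      exact (le_max_left C 1).trans ((Real.log_le_log_iff hm1 (by linarith)).1 h3)
    have h6 := mul_le_mul_of_nonneg_left hc1 ht.le
    have h7 := mul_le_mul_of_nonneg_left hc2 ht.le
    have h8 := H π d hP hCd t ht (by linarith) (by linarith)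
    refine cnt_mono h8 (fun z hz => ⟨hz.1, ?_⟩) ?_
    · have h9 : |z.im| ≤ |z.im - v| + |v| := by
        have := abs_add_le (z.im - v) v
        rwa [sub_add_cancel] at this
      have h10 := hz.2
      have h11 := le_abs_self R
      linarith
    · change η * Real.log d ≤ ε * Real.log (cc π v)
      have h9 : η * Real.log d ≤ ε * Real.log (cc π v) :=
        mul_le_mul hη1 (by linarith) (Real.log_nonneg hd1) hε.le
      linarith
  · intro h δ ε X R hδ hε
    obtain ⟨J, hJ⟩ := exists_nat_ge (|R| + 1)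
    have hJ0 : (0 : ℝ) ≤ J := Nat.cast_nonneg J
    obtain ⟨ε', hε'⟩ : ∃ ε' : ℝ, ε' = ε / (3 * (2 * J + 1)) := ⟨_, rfl⟩
    have hε'0 : 0 < ε' := by rw [hε']; positivity
    obtain ⟨C0, H⟩ := h (κ + ε / 2) (by linarith) δ ε' (X + 1) J hδ hε'0
    obtain ⟨K, hK, HK⟩ := log_cmp hS (J : ℝ)
    obtain ⟨ρ, hρ⟩ : ∃ ρ : ℝ, ρ = min (ε / 2) 1 := ⟨_, rfl⟩
    have hρ0 : 0 < ρ := by rw [hρ]; exact lt_min (by positivity) one_pos
    have hρ1 : ρ ≤ ε / 2 := by rw [hρ]; exact min_le_left _ _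
    have hρ2 : ρ ≤ 1 := by rw [hρ]; exact min_le_right _ _
    refine ⟨Real.exp (|X| * K / ρ + K + 1 + |Real.log (max C0 1)|), ?_⟩
    intro π d hP hC τ hτ h1 h2
    have hL : |X| * K / ρ + K + 1 + |Real.log (max C0 1)| ≤ Real.log d := by
      have := Real.log_le_log (Real.exp_pos _) hC
      rwa [Real.log_exp] at this
    have h0 : 0 ≤ |X| * K / ρ := by positivity
    have h00 := abs_nonneg (Real.log (max C0 1))
    have hL0 : 0 < Real.log d := by linarith
    have htr : τ * K ≤ ρ := by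
      have h3 : τ * (|X| * K) ≤ τ * (ρ * (2 * Real.log d)) := by
        apply mul_le_mul_of_nonneg_left _ hτ.le
        have h4 : |X| * K / ρ ≤ Real.log d := by linarith
        rw [div_le_iff₀ hρ0] at h4
        have : 0 ≤ ρ * Real.log d := by positivity
        linarith
      have h4 : τ * (ρ * (2 * Real.log d)) ≤ |X| * ρ := by
        have := mul_le_mul_of_nonneg_right (h2.trans (le_abs_self X)) hρ0.le
        linarith
      have hX : 0 < |X| := by
        have : 0 < X := by linarith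
        exact abs_pos.2 this.ne'
      have h5 : |X| * (τ * K) ≤ |X| * ρ := by linarith
      exact le_of_mul_le_mul_left h5 hX
    have h9 : ∀ j : ℤ, |j| ≤ J → Cnt (Pool.Agent.W169.HF.heat τ (XX π.q π.Λ))
        {z : ℂ | 1 / 2 + δ ≤ z.re ∧ |z.im - (0 + j)| ≤ 1} (ε' * (3 * Real.log d)) := by
      intro j hj
      have hj' : |(j : ℝ)| ≤ J := by exact_mod_cast hj
      obtain ⟨hc1, hc2⟩ := HK π d hP (j : ℝ) hj'
      have h6 := mul_le_mul_of_nonneg_left hc1 hτ.le
      have h7 := mul_le_mul_of_nonneg_left hc2 hτ.le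
      have hQ : C0 ≤ cc π (j : ℝ) := by
        have h3 : Real.log (max C0 1) ≤ Real.log (cc π j) := by
          have := le_abs_self (Real.log (max C0 1))
          linarith
        have hm1 : 0 < max C0 1 := lt_max_of_lt_right one_pos
        exact (le_max_left C0 1).trans
          ((Real.log_le_log_iff hm1 (by linarith [cc_one π (j : ℝ)])).1 h3)
      have h8 := H π.q (fun j => -π.μ j) π.α π.ε π.Λ 0 ⟨rfl, π, d, hP, rfl, rfl, rfl, rfl, rfl⟩ (std π)
        τ j hτ hj' (by rw [zero_add]; exact hQ)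
        (by rw [zero_add]; change _ ≤ τ * Real.log (cc π j); linarith)
        (by rw [zero_add]; change τ * Real.log (cc π j) ≤ _; linarith)
      refine cnt_mono h8 subset_rfl ?_
      rw [zero_add]
      change ε' * Real.log (cc π j) ≤ ε' * (3 * Real.log d)
      exact mul_le_mul_of_nonneg_left (by linarith) hε'0.le
    have h10 := cnt_cover (F := Pool.Agent.W169.HF.heat τ (XX π.q π.Λ)) (y := 0) (δ := δ)
      (c := ε' * (3 * Real.log d)) (J := J) (R := |R|) (by linarith) (by positivity) h9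
    refine cnt_mono h10 (fun z hz => ⟨hz.1, ?_⟩) (le_of_eq ?_)
    · rw [sub_zero]
      exact hz.2.trans (le_abs_self R)
    · rw [hε']
      field_simp

/-- the exponents depend continuously on `κ` -/
lemma per_cont {P : Cls2 n} {κ : ℝ} (hκ : 0 < κ) {r : ℝ} (hr : 0 ≤ r)
    (h : ∀ κ' : ℝ, κ < κ' → PEr P r (max (κ' - r) 0 ^ 2 / (4 * κ'))) :
    PEr P r (max (κ - r) 0 ^ 2 / (4 * κ)) := by
  intro ε R hε
  obtain ⟨B, HB⟩ := h (κ + ε) (by linarith) (ε / 2) R (by positivity)
  refine ⟨B, fun N μ α e Λ y hP hS v hv =>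
    (HB N μ α e Λ y hP hS v hv).trans (Real.exp_le_exp.2 ?_)⟩
  have h5 := (phx_lip (x := κ) (x' := κ + ε) (η := ε) hκ hr (by linarith) le_rfl).2
  unfold phx at h5
  have e1 : max (κ + ε - r) 0 ^ 2 / (4 * (κ + ε)) = max (κ + ε - r) 0 ^ 2 / (2 * (κ + ε)) / 2 := by
    field_simp
    ring
  have e2 : max (κ - r) 0 ^ 2 / (4 * κ) = max (κ - r) 0 ^ 2 / (2 * κ) / 2 := by
    field_simp
    ring
  have h6 : (max (κ + ε - r) 0 ^ 2 / (4 * (κ + ε)) + ε / 2) * Real.log (cnd N μ (y + v)) ≤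
      (max (κ - r) 0 ^ 2 / (4 * κ) + ε) * Real.log (cnd N μ (y + v)) := by
    apply mul_le_mul_of_nonneg_right _ (Real.log_nonneg (cnd_pos hS.1.one_le μ (y + v)))
    rw [e1, e2]
    linarith
  linarith

lemma exp_mono {κ κ' r : ℝ} (hκ : 0 < κ) (hr : 0 ≤ r) (h : κ ≤ κ') :
    max (κ - r) 0 ^ 2 / (4 * κ) ≤ max (κ' - r) 0 ^ 2 / (4 * κ') := by
  have h5 := (phx_lip (x := κ) (x' := κ') (η := κ' - κ) hκ hr h (by linarith)).1
  unfold phx at h5
  have hκ' : 0 < κ' := by linarith
  have e1 : max (κ' - r) 0 ^ 2 / (4 * κ') = max (κ' - r) 0 ^ 2 / (2 * κ') / 2 := by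
    field_simp
    ring
  have e2 : max (κ - r) 0 ^ 2 / (4 * κ) = max (κ - r) 0 ^ 2 / (2 * κ) / 2 := by
    field_simp
    ring
  rw [e1, e2]
  linarith

/-- **Main theorem.** Let `S` be a set of pairs `(π, d)` with conductors of the order `d²` and bounded
archimedean parameters.  (1) `FewZeros S 1` holds; (2) for `κ > 0`, `FewZeros S κ` is equivalent to the bounds
with the exponent `max(κ - r, 0)² / (2 κ)` of `d` on the lines `Re s = 1/2 + r`, `0 ≤ r ≤ 1/2`; (3) `FewZeros S 0`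
is equivalent to the Lindelöf bound near the central point; (4) an exponent `a` of `d` on the critical line
implies `FewZeros S (1 / (2 - 2a))` if `0 ≤ a ≤ 1/2`, and `FewZeros S κ` implies the exponent `κ / 2` if
`κ ≥ 0`; (5) there is a subconvex bound if and only if `FewZeros S κ` for some `κ < 1`; (6) `FewZeros S κ` implies
`L(1/2, π) ≪ d^(κ/2 + ε)`, in particular `FewZeros S 0` implies `L(1/2, π) ≪ d^β` for all `β > 0` (Q1 for the
family). -/
theorem result (hn : 1 ≤ n) (S : Set (CuspidalL n × ℝ)) (hS : IsTwists S) :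
    FewZeros S 1 ∧
    (∀ κ : ℝ, 0 < κ → (FewZeros S κ ↔
      ∀ r : ℝ, 0 ≤ r → r ≤ 1 / 2 → Size S r (max (κ - r) 0 ^ 2 / (2 * κ)))) ∧
    (FewZeros S 0 ↔ Size S 0 0) ∧
    (∀ a : ℝ, 0 ≤ a → a ≤ 1 / 2 → Size S 0 a → FewZeros S (1 / (2 - 2 * a))) ∧
    (∀ κ : ℝ, 0 ≤ κ → FewZeros S κ → Size S 0 (κ / 2)) ∧
    ((∃ δ : ℝ, 0 < δ ∧ Size S 0 (1 / 2 - δ)) ↔ ∃ κ : ℝ, 0 ≤ κ ∧ κ < 1 ∧ FewZeros S κ) ∧
    (∀ κ : ℝ, 0 ≤ κ → FewZeros S κ → ∀ β : ℝ, κ / 2 < β → ∃ B : ℝ, ∀ (π : CuspidalL n) (d : ℝ),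
      (π, d) ∈ S → ‖L π (1 / 2)‖ ≤ B * d ^ β) := by
  have h2 : ∀ κ : ℝ, 0 < κ → (FewZeros S κ ↔
      ∀ r : ℝ, 0 ≤ r → r ≤ 1 / 2 → Size S r (max (κ - r) 0 ^ 2 / (2 * κ))) := by
    intro κ hκ
    have e : ∀ r : ℝ, max (κ - r) 0 ^ 2 / (2 * κ) = 2 * (max (κ - r) 0 ^ 2 / (4 * κ)) := fun r => by
      field_simp
      ring
    simp only [e]
    rw [few_iff hS hκ.le]
    constructor
    · intro h r hr hr1
      rw [size_iff hS]
      exact per_cont hκ hr fun κ' hκ' => (pf_iff hn (hκ.trans hκ')).1 (h κ' hκ') r hr hr1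
    · intro h κ' hκ'
      refine (pf_iff hn (hκ.trans hκ')).2 fun r hr hr1 => ?_
      exact per_mono (exp_mono hκ hr hκ'.le) ((size_iff hS r _).1 (h r hr hr1))
  have h0 : ∀ a : ℝ, Size S 0 (2 * a) ↔ PE (cls S) a := fun a => by rw [size_iff hS, per0]
  have h3 : FewZeros S 0 ↔ Size S 0 0 := by
    have h := h0 0
    rw [mul_zero] at h
    rw [few_iff hS le_rfl, h, lind_iff hn]
  have h4 : ∀ a : ℝ, 0 ≤ a → a ≤ 1 / 2 → Size S 0 a → FewZeros S (1 / (2 - 2 * a)) := by
    intro a ha ha1 h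
    have e : a = 2 * (a / 2) := by ring
    rw [e] at h
    have h5 : PH (cls S) (1 / (2 - 4 * (a / 2))) :=
      pe_ph hn (by positivity) (by linarith) ((h0 _).1 h)
    rw [show 4 * (a / 2) = 2 * a by ring] at h5
    exact (few_iff hS (div_nonneg zero_le_one (by linarith))).2 fun κ' hκ' => ph_pf hκ' h5
  have h5 : ∀ κ : ℝ, 0 ≤ κ → FewZeros S κ → Size S 0 (κ / 2) := by
    intro κ hκ h
    rcases eq_or_lt_of_le hκ with h6 | h6
    · rw [← h6] at h ⊢
      rw [zero_div]
      exact h3.1 h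
    · have h7 := (h2 κ h6).1 h 0 le_rfl (by norm_num)
      rw [sub_zero, max_eq_left hκ] at h7
      have e : κ ^ 2 / (2 * κ) = κ / 2 := by
        field_simp
      rwa [e] at h7
  refine ⟨?_, h2, h3, h4, h5, ?_, ?_⟩
  · exact (few_iff hS zero_le_one).2 fun κ' hκ' => pf_mono hκ'.le (pf_one hn)
  · constructor
    · rintro ⟨δ, hδ, h⟩
      obtain ⟨δ', hδ'⟩ : ∃ δ' : ℝ, δ' = min δ (1 / 2) := ⟨_, rfl⟩
      have h6 : 0 < δ' := by rw [hδ']; exact lt_min hδ (by norm_num)
      have h7 : δ' ≤ δ := by rw [hδ']; exact min_le_left _ _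
      have h8 : δ' ≤ 1 / 2 := by rw [hδ']; exact min_le_right _ _
      have h9 : Size S 0 (1 / 2 - δ') := by
        have e1 : 1 / 2 - δ = 2 * ((1 / 2 - δ) / 2) := by ring
        have e2 : 1 / 2 - δ' = 2 * ((1 / 2 - δ') / 2) := by ring
        rw [e1, size_iff hS] at h
        rw [e2, size_iff hS]
        exact per_mono (by linarith) h
      refine ⟨1 / (2 - 2 * (1 / 2 - δ')), div_nonneg zero_le_one (by linarith), ?_,
        h4 _ (by linarith) (by linarith) h9⟩
      rw [div_lt_one (by linarith)]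
      linarith
    · rintro ⟨κ, hκ, hκ1, h⟩
      exact ⟨(1 - κ) / 2, by linarith, by
        have h6 := h5 κ hκ h
        have e : 1 / 2 - (1 - κ) / 2 = κ / 2 := by ring
        rwa [e]⟩
  · intro κ hκ h β hβ
    obtain ⟨B, HB⟩ := h5 κ hκ h (β - κ / 2) 0 (by linarith)
    refine ⟨B, fun π d hP => ?_⟩
    have h6 := HB π d hP 0 (by simp)
    have e : (1 / 2 + ((0 : ℝ) : ℂ) + ((0 : ℝ) : ℂ) * I : ℂ) = 1 / 2 := by
      push_cast; ring
    rw [e, show κ / 2 + (β - κ / 2) = β by ring] at h6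
    exact h6

end Pool.Agent.Results.MP_21d687_nt.HeatFlowNearCentre
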