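import Pool.Agent.U427.DG.Fam2

/-!
# Quadratic twists near the central point: zeros, Lindelöf bound and high derivatives

`S` is a set of pairs `(π, d)`, `d ≥ 1`: for instance `d = |D|_{S_∞} = |N(D)|` and `L(s, π)` the L-function of
`π_0 ⊗ χ_D`, where `π_0` is a fixed cuspidal representation of `PGL_2(𝔸_F)` and `D` runs through the square-free
elements of `𝓞_F`.  The conductors `q(π)` are then of the order `d²` and the archimedean parameters are bounded
(`IsTwists S`).  `Λ(s, π)` is the completed L-function and `ξ_π(s) = q(π)^(s/2) Λ(s, π)`.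

* `Lindelof S`: `L(1/2 + it, π) ≪ d^ε` for all `ε > 0`, uniformly for bounded `t`; it contains the bound
  `L(1/2, π) ≪ d^β`, for every `β > 0`, of the problem.
* `LindelofRight S κ`: `L(1/2 + r + it, π) ≪ d^ε`, uniformly for `κ + ε ≤ r ≤ 1/2` and bounded `t`.
* `ZeroFree S κ`: for all `ε, R > 0` and large `d` there are no zeros with `Re s ≥ 1/2 + κ + ε`, `|Im s| ≤ R`.
* `OnTheLine S κ`: for all `ε, R > 0` there is a `C` such that all zeros with `|Im s| ≤ R` of the
  derivatives `ξ_π^(k)` of all the orders `k ≥ (κ + ε) log d + C` are simple and on the line `Re s = 1/2`.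

Theorem.  For every such set `S`:

1. `OnTheLine S (1/2)` holds (unconditionally);
2. for `0 ≤ κ ≤ 1/2`, `ZeroFree S κ` is equivalent to `LindelofRight S κ` and `OnTheLine S κ`;
3. `ZeroFree S 0` (the Riemann hypothesis near the central point, up to `o(1)`) is equivalent to `Lindelof S` and
   `OnTheLine S 0`;
4. (the central derivatives) if `OnTheLine S κ`, `κ ≥ 0`, then for all `ε > 0` there is a `C` such that for all
   `(π, d)` in `S` with `π` self-dual and all `k ≥ (κ + ε) log d + C`: `ξ_π^(k)(1/2) = 0` if and only if the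
   functional equation implies it.  By 1. this holds unconditionally with `κ = 1/2`.

So the Lindelöf bound is exactly what is missing from the statement on the derivatives of the orders
`k ≥ ε log d` to the Riemann hypothesis near the central point.
-/

set_option autoImplicit false

open Complex
open scoped ComplexConjugate

namespace Pool.Agent.Results.MP_21d687_nt.HighDerivatives

/-- Analytic data of an L-function of degree `n` over `ℚ` with the properties of the L-functions of unitary cuspidal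
automorphic representations; for `π ⊗ χ_D`, `π` a cuspidal representation of `PGL_2(𝔸_F)`, the degree is
`n = 2 [F : ℚ]`.  Conductor `q`, archimedean parameters `μ_j` with
`Re μ_j ≥ -1/2` (the gamma factor is `∏ Γ_ℝ(s + μ_j)`), Satake parameters `|α_j(p)| ≤ √p`, root number `ε`,
and the entire completed L-function `Λ` (gamma factor times Euler product for `Re s > 3/2`) with the
functional equation, finite order in vertical strips and no zeros in `Re s > 1` (all known:
Godement-Jacquet, Jacquet-Shalika). -/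
structure CuspidalL (n : ℕ) where
  /-- the conductor -/
  q : ℝ
  /-- the archimedean parameters -/
  μ : Fin n → ℂ
  /-- the Satake parameters -/
  α : Fin n → ℕ → ℂ
  /-- the root number -/
  ε : ℂ
  /-- the completed L-function -/
  Λ : ℂ → ℂ
  one_le : 1 ≤ q
  le_re : ∀ j, -(1 / 2) ≤ (μ j).re
  norm_le : ∀ j, ∀ p : ℕ, p.Prime → ‖α j p‖ ≤ Real.sqrt p
  norm_eq : ‖ε‖ = 1
  entire : Differentiable ℂ Λ
  euler : ∀ s : ℂ, 3 / 2 < s.re → Λ s = (∏ j, Gammaℝ (s + μ j)) *
    ∏' p : Nat.Primes, ∏ j, (1 - α j p * (p : ℂ) ^ (-s))⁻¹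
  fe : ∀ s : ℂ, Λ s = ε * (q : ℂ) ^ (1 / 2 - s) * conj (Λ (1 - conj s))
  bdd : ∀ a b : ℝ, ∃ M, ∀ s : ℂ, a ≤ s.re → s.re ≤ b → ‖Λ s‖ ≤ Real.exp (M * (1 + |s.im|))
  ne_zero : ∀ s : ℂ, 1 < s.re → Λ s ≠ 0

variable {n : ℕ}

/-- The L-function `L(s, π) = Λ(s, π) / ∏ Γ_ℝ(s + μ_j)` (without the archimedean factors). -/
noncomputable def L (π : CuspidalL n) (s : ℂ) : ℂ := π.Λ s * ∏ j, (Gammaℝ (s + π.μ j))⁻¹

/-- `ξ_π(s) = q^(s/2) Λ(s, π)`. -/
noncomputable def xi (π : CuspidalL n) (s : ℂ) : ℂ := (π.q : ℂ) ^ (s / 2) * π.Λ s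

/-- The properties of the pairs (`π = π_0 ⊗ χ_D`, `d = |N(D)|`), `π_0` fixed, `D` square-free: the conductor is
of the order `d²` and the archimedean parameters are bounded. -/
def IsTwists (S : Set (CuspidalL n × ℝ)) : Prop :=
  ∃ c C A : ℝ, 0 < c ∧ ∀ π : CuspidalL n, ∀ d : ℝ, (π, d) ∈ S →
    1 ≤ d ∧ c * d ^ 2 ≤ π.q ∧ π.q ≤ C * d ^ 2 ∧ ∀ j, ‖π.μ j‖ ≤ A

/-- `L(1/2 + it, π) ≪ d^ε` for every `ε > 0`, uniformly for `(π, d) ∈ S` and bounded `t`. -/
def Lindelof (S : Set (CuspidalL n × ℝ)) : Prop :=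
  ∀ ε R : ℝ, 0 < ε → ∃ B : ℝ, ∀ (π : CuspidalL n) (d : ℝ), (π, d) ∈ S → ∀ t : ℝ, |t| ≤ R →
    ‖L π (1 / 2 + (t : ℂ) * I)‖ ≤ B * d ^ ε

/-- `L(1/2 + r + it, π) ≪ d^ε` for every `ε > 0`, uniformly for `(π, d) ∈ S`, `κ + ε ≤ r ≤ 1/2` and bounded
`t`. -/
def LindelofRight (S : Set (CuspidalL n × ℝ)) (κ : ℝ) : Prop :=
  ∀ ε R : ℝ, 0 < ε → ∃ B : ℝ, ∀ (π : CuspidalL n) (d : ℝ), (π, d) ∈ S → ∀ r t : ℝ, κ + ε ≤ r →
    r ≤ 1 / 2 → |t| ≤ R → ‖L π (1 / 2 + (r : ℂ) + (t : ℂ) * I)‖ ≤ B * d ^ ε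

/-- No zeros with `Re s ≥ 1/2 + κ + ε`, `|Im s| ≤ R`, if `d` is large. -/
def ZeroFree (S : Set (CuspidalL n × ℝ)) (κ : ℝ) : Prop :=
  ∀ ε R : ℝ, 0 < ε → ∃ D : ℝ, ∀ (π : CuspidalL n) (d : ℝ), (π, d) ∈ S → D ≤ d →
    ∀ s : ℂ, |s.im| ≤ R → 1 / 2 + κ + ε ≤ s.re → π.Λ s ≠ 0

/-- The zeros with `|Im s| ≤ R` of the derivatives `ξ_π^(k)` of the orders `k ≥ (κ + ε) log d + C` are simple
and on the critical line. -/
def OnTheLine (S : Set (CuspidalL n × ℝ)) (κ : ℝ) : Prop :=
  ∀ ε R : ℝ, 0 < ε → ∃ C : ℝ, ∀ (π : CuspidalL n) (d : ℝ), (π, d) ∈ S → ∀ (k : ℕ) (s : ℂ),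
    |s.im| ≤ R → (κ + ε) * Real.log d + C ≤ k → iteratedDeriv k (xi π) s = 0 →
      s.re = 1 / 2 ∧ iteratedDeriv (k + 1) (xi π) s ≠ 0

open Pool.Agent.W169.HF Pool.Agent.U427.DG

lemma std (π : CuspidalL n) : Std π.q (fun j => -π.μ j) π.α π.ε π.Λ :=
  ⟨{ one_le := π.one_le
     re_le := fun j => by have := π.le_re j; simp only [neg_re]; linarith
     norm_le := fun j p hp => by
       rw [← Real.sqrt_eq_rpow]
       exact π.norm_le j p hp
     norm_eq := π.norm_eq
     entire := π.entire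
     euler := fun s hs => by
       simp only [sub_neg_eq_add]
       exact π.euler s (by linarith)
     fe := π.fe
     bdd := π.bdd }, π.ne_zero⟩

/-- the class of pairs (L-function, height `0`) -/
def cls (S : Set (CuspidalL n × ℝ)) : Cls2 n := fun N μ α e Λ y => y = 0 ∧
  ∃ (π : CuspidalL n) (d : ℝ), (π, d) ∈ S ∧ π.q = N ∧ (fun j => -π.μ j) = μ ∧ π.α = α ∧ π.ε = e ∧
    π.Λ = Λ

/-- the conductor of the library -/
noncomputable def cc (π : CuspidalL n) (y : ℝ) : ℝ := cnd π.q (fun j => -π.μ j) y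

lemma cc_one (π : CuspidalL n) (y : ℝ) : 1 ≤ cc π y := cnd_pos π.one_le _ y

lemma LL_eq (π : CuspidalL n) (s : ℂ) : LL (fun j => -π.μ j) π.Λ s = L π s := by
  simp only [LL, L, sub_neg_eq_add]

/-- the conductors are of the order `d²` at bounded height -/
lemma log_cmp {S : Set (CuspidalL n × ℝ)} (hS : IsTwists S) (R : ℝ) : ∃ K : ℝ, 0 ≤ K ∧
    ∀ (π : CuspidalL n) (d : ℝ), (π, d) ∈ S → ∀ v : ℝ, |v| ≤ R →
      Real.log (cc π v) ≤ 2 * Real.log d + K ∧ 2 * Real.log d ≤ Real.log (cc π v) + K := by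
  obtain ⟨c, C, A, hc, H⟩ := hS
  refine ⟨|Real.log c| + |Real.log (max C 1)| + n * Real.log (1 + (|R| + |A|)), ?_, ?_⟩
  · have h1 := Real.log_nonneg (show (1 : ℝ) ≤ 1 + (|R| + |A|) by
      linarith [abs_nonneg R, abs_nonneg A])
    have h2 := mul_nonneg (Nat.cast_nonneg (α := ℝ) n) h1
    have h3 := abs_nonneg (Real.log c)
    have h4 := abs_nonneg (Real.log (max C 1))
    linarith
  intro π d hd v hv
  obtain ⟨h1, h2, h3, h4⟩ := H π d hd
  have hq := π.one_le
  have hN : 0 ≤ (n : ℝ) * Real.log (1 + (|R| + |A|)) :=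
    mul_nonneg (Nat.cast_nonneg n) (Real.log_nonneg (by linarith [abs_nonneg R, abs_nonneg A]))
  have hlow : Real.log π.q ≤ Real.log (cc π v) :=
    Real.log_le_log (by linarith) (le_cnd π.one_le _ v)
  have hup : Real.log (cc π v) ≤ Real.log π.q + n * Real.log (1 + (|R| + |A|)) := by
    have h5 : cc π v ≤ π.q * (1 + (|R| + |A|)) ^ n := by
      unfold cc cnd
      apply mul_le_mul_of_nonneg_left _ (by linarith)
      have h6 : ∏ j, (1 + ‖(v : ℂ) * I - (fun j => -π.μ j) j‖) ≤ ∏ _j : Fin n, (1 + (|R| + |A|)) := by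
        apply Finset.prod_le_prod (fun j _ => by positivity)
        intro j _
        have h7 : ‖(v : ℂ) * I - -π.μ j‖ ≤ |v| + ‖π.μ j‖ := by
          rw [sub_neg_eq_add]
          refine (norm_add_le _ _).trans ?_
          rw [norm_mul, Complex.norm_real, Complex.norm_I, mul_one, Real.norm_eq_abs]
        have h8 := h4 j
        have h9 := le_abs_self R
        have h10 := le_abs_self A
        simp only
        linarith
      rwa [Finset.prod_const, Finset.card_univ, Fintype.card_fin] at h6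
    have h6 := Real.log_le_log (by linarith [cc_one π v]) h5
    rw [Real.log_mul (by linarith) (by positivity), Real.log_pow] at h6
    exact h6
  have hd0 : 0 < d := by linarith
  have hcd : Real.log c + 2 * Real.log d ≤ Real.log π.q := by
    have h5 := Real.log_le_log (by positivity) h2
    rw [Real.log_mul hc.ne' (by positivity), Real.log_pow] at h5
    exact_mod_cast h5
  have hCd : Real.log π.q ≤ Real.log (max C 1) + 2 * Real.log d := by
    have hC : 0 < max C 1 := lt_max_of_lt_right one_pos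
    have h5 : π.q ≤ max C 1 * d ^ 2 := h3.trans (by gcongr; exact le_max_left _ _)
    have h6 := Real.log_le_log (by linarith) h5
    rw [Real.log_mul hC.ne' (by positivity), Real.log_pow] at h6
    exact_mod_cast h6
  have e1 := neg_abs_le (Real.log c)
  have e2 := le_abs_self (Real.log (max C 1))
  have e3 := abs_nonneg (Real.log c)
  have e4 := abs_nonneg (Real.log (max C 1))
  constructor <;> linarith

lemma rpow_exp {x : ℝ} (hx : 1 ≤ x) (a : ℝ) : x ^ a = Real.exp (a * Real.log x) := by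
  rw [Real.rpow_def_of_pos (by linarith), mul_comm]

lemma le_max_exp {B x : ℝ} (h : x ≤ B) : x ≤ Real.exp (Real.log (max B 1)) := by
  rw [Real.exp_log (lt_max_of_lt_right one_pos)]
  exact h.trans (le_max_left _ _)

/-- conversion of a bound in `d` into a bound in the conductor -/
lemma bound_fwd {B e K d c x : ℝ} (hd : 1 ≤ d) (he : 0 ≤ e) (hK : 2 * Real.log d ≤ c + K)
    (h : x ≤ B * d ^ (2 * e)) : x ≤ Real.exp (Real.log (max B 1) + e * K + e * c) := by
  have hB : 0 < max B 1 := lt_max_of_lt_right one_pos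
  rw [rpow_exp hd] at h
  have h4 : 2 * e * Real.log d ≤ e * K + e * c := by nlinarith
  calc x ≤ B * Real.exp (2 * e * Real.log d) := h
    _ ≤ max B 1 * Real.exp (e * K + e * c) :=
        mul_le_mul (le_max_left _ _) (Real.exp_le_exp.2 h4) (Real.exp_pos _).le hB.le
    _ = Real.exp (Real.log (max B 1) + e * K + e * c) := by
        rw [add_assoc, Real.exp_add (Real.log (max B 1)), Real.exp_log hB]

/-- conversion of a bound in the conductor into a bound in `d` -/
lemma bound_bwd {B e K d c x : ℝ} (hd : 1 ≤ d) (he : 0 ≤ e) (hK : c ≤ 2 * Real.log d + K)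
    (h : x ≤ Real.exp (B + e / 2 * c)) : x ≤ Real.exp (B + e / 2 * K) * d ^ e := by
  refine h.trans ?_
  rw [rpow_exp hd, ← Real.exp_add]
  apply Real.exp_le_exp.2
  nlinarith

lemma lind_iff' {S : Set (CuspidalL n × ℝ)} (hS : IsTwists S) : Lindelof S ↔ PE (cls S) 0 := by
  constructor
  · intro h ε R hε
    obtain ⟨B, HB⟩ := h (2 * ε) |R| (by positivity)
    obtain ⟨K, hK, HK⟩ := log_cmp hS |R|
    refine ⟨Real.log (max B 1) + ε * K, ?_⟩
    rintro N μ α e Λ y ⟨rfl, π, d, hP, rfl, rfl, rfl, rfl, rfl⟩ _ v hv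
    rw [zero_add, zero_add, LL_eq]
    have h1 := HB π d hP v (hv.trans (le_abs_self R))
    obtain ⟨c, C, A, hc, H⟩ := hS
    obtain ⟨h2, h3⟩ := HK π d hP v (hv.trans (le_abs_self R))
    exact bound_fwd (H π d hP).1 hε.le h3 h1
  · intro h ε R hε
    obtain ⟨B, HB⟩ := h (ε / 2) |R| (by positivity)
    obtain ⟨K, hK, HK⟩ := log_cmp hS |R|
    refine ⟨Real.exp (B + ε / 2 * K), fun π d hP t ht => ?_⟩
    have h1 := HB π.q (fun j => -π.μ j) π.α π.ε π.Λ 0 ⟨rfl, π, d, hP, rfl, rfl, rfl, rfl, rfl⟩ (std π) t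
      (ht.trans (le_abs_self R))
    rw [LL_eq, zero_add, zero_add] at h1
    obtain ⟨c, C, A, hc, H⟩ := hS
    obtain ⟨h2, h3⟩ := HK π d hP t (ht.trans (le_abs_self R))
    exact bound_bwd (H π d hP).1 hε.le h2 h1

lemma right_iff {S : Set (CuspidalL n × ℝ)} (hS : IsTwists S) (κ : ℝ) :
    LindelofRight S κ ↔ GR (cls S) κ := by
  constructor
  · intro h ε R hε
    obtain ⟨B, HB⟩ := h ε |R| (by positivity)
    obtain ⟨K, hK, HK⟩ := log_cmp hS |R|
    refine ⟨Real.log (max B 1) + ε * K, ?_⟩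
    rintro N μ α e Λ y ⟨rfl, π, d, hP, rfl, rfl, rfl, rfl, rfl⟩ _ r v hr hr1 hv
    rw [zero_add, LL_eq]
    have h1 := HB π d hP r v hr hr1 (hv.trans (le_abs_self R))
    obtain ⟨c, C, A, hc, H⟩ := hS
    obtain ⟨h2, h3⟩ := HK π d hP v (hv.trans (le_abs_self R))
    have hd := (H π d hP).1
    have h4 : ‖L π (1 / 2 + (r : ℂ) + (v : ℂ) * I)‖ ≤ max B 1 * d ^ (2 * ε) := by
      refine h1.trans ?_
      exact mul_le_mul (le_max_left _ _) (Real.rpow_le_rpow_of_exponent_le hd (by linarith))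
        (Real.rpow_nonneg (by linarith) _) (le_trans zero_le_one (le_max_right _ _))
    have h5 := bound_fwd (c := Real.log (cc π v)) hd hε.le h3 h4
    rwa [max_eq_left (le_max_right B 1)] at h5
  · intro h ε R hε
    obtain ⟨B, HB⟩ := h (ε / 2) |R| (by positivity)
    obtain ⟨K, hK, HK⟩ := log_cmp hS |R|
    refine ⟨Real.exp (B + ε / 2 * K), fun π d hP r t hr hr1 ht => ?_⟩
    have h1 := HB π.q (fun j => -π.μ j) π.α π.ε π.Λ 0 ⟨rfl, π, d, hP, rfl, rfl, rfl, rfl, rfl⟩ (std π) r t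
      (by linarith) hr1 (ht.trans (le_abs_self R))
    rw [LL_eq, zero_add] at h1
    obtain ⟨c, C, A, hc, H⟩ := hS
    obtain ⟨h2, h3⟩ := HK π d hP t (ht.trans (le_abs_self R))
    exact bound_bwd (H π d hP).1 hε.le h2 h1

lemma zf_iff {S : Set (CuspidalL n × ℝ)} (hS : IsTwists S) (κ : ℝ) : ZeroFree S κ ↔ DZ (cls S) κ := by
  constructor
  · intro h ε R hε
    obtain ⟨D, HD⟩ := h ε |R| hε
    obtain ⟨K, hK, HK⟩ := log_cmp hS |R|
    refine ⟨Real.exp (K + 1 + 2 * |Real.log (max D 1)|), ?_⟩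
    rintro N μ α e Λ y ⟨rfl, π, d, hP, rfl, rfl, rfl, rfl, rfl⟩ _ s hs hC hre
    rw [sub_zero] at hs
    change _ ≤ cc π s.im at hC
    have hL : K + 1 + 2 * |Real.log (max D 1)| ≤ Real.log (cc π s.im) := by
      have := Real.log_le_log (Real.exp_pos _) hC
      rwa [Real.log_exp] at this
    obtain ⟨h2, h3⟩ := HK π d hP s.im (hs.trans (le_abs_self R))
    obtain ⟨c, C, A, hc, H⟩ := hS
    have hd := (H π d hP).1
    have h4 : Real.log (max D 1) ≤ Real.log d := by
      have := le_abs_self (Real.log (max D 1))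
      have := abs_nonneg (Real.log (max D 1))
      linarith
    have hm1 : 0 < max D 1 := lt_max_of_lt_right one_pos
    have hDd : D ≤ d := (le_max_left D 1).trans ((Real.log_le_log_iff hm1 (by linarith)).1 h4)
    exact HD π d hP hDd s (hs.trans (le_abs_self R)) hre
  · intro h ε R hε
    obtain ⟨C0, HC⟩ := h ε |R| hε
    obtain ⟨K, hK, HK⟩ := log_cmp hS |R|
    refine ⟨Real.exp (K + 1 + |Real.log (max C0 1)|), fun π d hP hD s hs hre => ?_⟩
    have hL : K + 1 + |Real.log (max C0 1)| ≤ Real.log d := by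
      have := Real.log_le_log (Real.exp_pos _) hD
      rwa [Real.log_exp] at this
    obtain ⟨h2, h3⟩ := HK π d hP s.im (hs.trans (le_abs_self R))
    have h00 := abs_nonneg (Real.log (max C0 1))
    have h4 : Real.log (max C0 1) ≤ Real.log (cc π s.im) := by
      have := le_abs_self (Real.log (max C0 1))
      linarith
    have hm1 : 0 < max C0 1 := lt_max_of_lt_right one_pos
    have hQ : C0 ≤ cc π s.im := (le_max_left C0 1).trans
      ((Real.log_le_log_iff hm1 (by linarith [cc_one π s.im])).1 h4)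
    exact HC π.q (fun j => -π.μ j) π.α π.ε π.Λ 0 ⟨rfl, π, d, hP, rfl, rfl, rfl, rfl, rfl⟩ (std π) s
      (by rw [sub_zero]; exact hs.trans (le_abs_self R)) hQ hre

lemma high_iff {S : Set (CuspidalL n × ℝ)} (hS : IsTwists S) {κ : ℝ} (hκ : 0 ≤ κ) :
    OnTheLine S κ ↔ DL (cls S) κ := by
  constructor
  · intro h ε R hε
    obtain ⟨C, HC⟩ := h ε |R| hε
    obtain ⟨K, hK, HK⟩ := log_cmp hS |R|
    refine ⟨C + (κ / 2 + ε) * K, ?_⟩
    rintro N μ α e Λ y ⟨rfl, π, d, hP, rfl, rfl, rfl, rfl, rfl⟩ _ k s hs hk hz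
    rw [sub_zero] at hs
    change (κ / 2 + ε) * Real.log (cc π s.im) + (C + (κ / 2 + ε) * K) ≤ k at hk
    obtain ⟨h2, h3⟩ := HK π d hP s.im (hs.trans (le_abs_self R))
    have hd : 1 ≤ d := by
      obtain ⟨c, C', A, hc, H⟩ := hS
      exact (H π d hP).1
    have hl : 0 ≤ Real.log d := Real.log_nonneg hd
    refine HC π d hP k s (hs.trans (le_abs_self R)) ?_ hz
    have h4 := mul_le_mul_of_nonneg_left h3 (show 0 ≤ κ / 2 + ε by linarith)
    nlinarith
  · intro h ε R hε
    obtain ⟨C, HC⟩ := h (ε / 2) |R| (by positivity)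
    obtain ⟨K, hK, HK⟩ := log_cmp hS |R|
    refine ⟨C + (κ / 2 + ε / 2) * K, fun π d hP k s hs hk hz => ?_⟩
    obtain ⟨h2, h3⟩ := HK π d hP s.im (hs.trans (le_abs_self R))
    refine HC π.q (fun j => -π.μ j) π.α π.ε π.Λ 0 ⟨rfl, π, d, hP, rfl, rfl, rfl, rfl, rfl⟩ (std π) k s
      (by rw [sub_zero]; exact hs.trans (le_abs_self R)) ?_ hz
    change (κ / 2 + ε / 2) * Real.log (cc π s.im) + C ≤ k
    have h4 := mul_le_mul_of_nonneg_left h2 (show 0 ≤ κ / 2 + ε / 2 by linarith)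
    nlinarith

/-- `π` is self-dual: the coefficients of its L-function are real. -/
def SelfDual (π : CuspidalL n) : Prop := ∀ s : ℂ, π.Λ (conj s) = conj (π.Λ s)

lemma xi_fe {π : CuspidalL n} (h : SelfDual π) (s : ℂ) : xi π s = π.ε * xi π (1 - s) := by
  have hq := π.one_le
  have hq0 : (π.q : ℂ) ≠ 0 := by
    have : π.q ≠ 0 := by linarith
    exact_mod_cast this
  unfold xi
  rw [π.fe s]
  have e1 : conj (π.Λ (1 - conj s)) = π.Λ (1 - s) := by
    rw [← h (1 - conj s)]
    simp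
  have e2 : (π.q : ℂ) ^ (s / 2) * (π.q : ℂ) ^ (1 / 2 - s) = (π.q : ℂ) ^ ((1 - s) / 2) := by
    rw [← cpow_add _ _ hq0]
    congr 1
    ring
  rw [e1, ← e2]
  ring

lemma eps_sq {π : CuspidalL n} (h : SelfDual π) : π.ε = 1 ∨ π.ε = -1 := by
  have h1 := xi_fe h 2
  have h2 := xi_fe h (1 - 2)
  rw [show (1 : ℂ) - (1 - 2) = 2 by ring] at h2
  rw [h2, ← mul_assoc] at h1
  have hne : xi π 2 ≠ 0 := by
    unfold xi
    have hq0 : (π.q : ℂ) ≠ 0 := by
      have : π.q ≠ 0 := by linarith [π.one_le]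
      exact_mod_cast this
    exact mul_ne_zero (by simp [hq0]) (π.ne_zero 2 (by norm_num))
  have h3 : π.ε * π.ε = 1 := by
    have h4 : (π.ε * π.ε - 1) * xi π 2 = 0 := by
      linear_combination -h1
    rcases mul_eq_zero.1 h4 with h5 | h5
    · linear_combination h5
    · exact absurd h5 hne
  exact mul_self_eq_one_iff.1 h3

lemma central {π : CuspidalL n} (h : SelfDual π) (k : ℕ) :
    iteratedDeriv k (xi π) (1 / 2) = π.ε * ((-1) ^ k * iteratedDeriv k (xi π) (1 / 2)) := by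
  have h1 : xi π = fun s => π.ε * xi π (1 - s) := funext (xi_fe h)
  have h2 : iteratedDeriv k (xi π) (1 / 2) =
      iteratedDeriv k (fun s => π.ε * xi π (1 - s)) (1 / 2) := congrArg (fun F => iteratedDeriv k F (1 / 2)) h1
  have h3 : iteratedDeriv k (fun s => π.ε * xi π (1 - s)) (1 / 2) =
      π.ε * ((-1) ^ k * iteratedDeriv k (xi π) (1 / 2)) := by
    rw [iteratedDeriv_const_mul_field, iteratedDeriv_comp_const_sub]
    simp only [smul_eq_mul]
    rw [show (1 : ℂ) - 1 / 2 = 1 / 2 by norm_num]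
  exact h2.trans h3

/-- **Main theorem.** Let `S` be a set of pairs `(π, d)` with conductors of the order `d²` and bounded
archimedean parameters.  (1) `OnTheLine S (1/2)` holds; (2) for `0 ≤ κ ≤ 1/2`, `ZeroFree S κ` is equivalent
to `LindelofRight S κ` and `OnTheLine S κ`; (3) `ZeroFree S 0` is equivalent to the Lindelöf bound near the
central point and `OnTheLine S 0`; (4) if `OnTheLine S κ`, `κ ≥ 0`, then the derivatives
`ξ_π^(k)(1/2)` of the orders `k ≥ (κ + ε) log d + C` vanish only if the functional equation implies it, for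
self-dual `π`; by (1) this is true for `κ = 1/2`. -/
theorem result (hn : 1 ≤ n) (S : Set (CuspidalL n × ℝ)) (hS : IsTwists S) :
    OnTheLine S (1 / 2) ∧
    (∀ κ : ℝ, 0 ≤ κ → κ ≤ 1 / 2 →
      (ZeroFree S κ ↔ LindelofRight S κ ∧ OnTheLine S κ)) ∧
    (ZeroFree S 0 ↔ Lindelof S ∧ OnTheLine S 0) ∧
    (∀ κ : ℝ, 0 ≤ κ → OnTheLine S κ → ∀ ε : ℝ, 0 < ε → ∃ C : ℝ, ∀ (π : CuspidalL n) (d : ℝ),
      (π, d) ∈ S → SelfDual π → ∀ k : ℕ, (κ + ε) * Real.log d + C ≤ k →
        (iteratedDeriv k (xi π) (1 / 2) = 0 ↔ (-1) ^ k * π.ε = -1)) := by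
  refine ⟨(high_iff hS (by norm_num)).2 (dl_half hn), fun κ hκ hκ1 => ?_, ?_, ?_⟩
  · rw [zf_iff hS, right_iff hS, high_iff hS hκ]
    exact dz_iff hn hκ hκ1
  · rw [zf_iff hS, lind_iff' hS, high_iff hS le_rfl]
    exact dz_zero hn
  · intro κ hκ h ε hε
    obtain ⟨C, HC⟩ := h ε 0 hε
    refine ⟨C, fun π d hP hsd k hk => ?_⟩
    have hone : ((1 : ℂ) / 2).im = 0 := by norm_num
    have hc := central hsd k
    have hc1 := central hsd (k + 1)
    have hcase : (-1 : ℂ) ^ k * π.ε = 1 ∨ (-1 : ℂ) ^ k * π.ε = -1 := by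
      rcases eps_sq hsd with he | he <;> rcases neg_one_pow_eq_or ℂ k with hp | hp <;> rw [he, hp] <;>
        norm_num
    constructor
    · intro hz
      rcases hcase with hcs | hcs
      · exfalso
        have h1 := (HC π d hP k (1 / 2) (by rw [hone, abs_zero]) hk hz).2
        apply h1
        have h2 : iteratedDeriv (k + 1) (xi π) (1 / 2) =
            -iteratedDeriv (k + 1) (xi π) (1 / 2) := by
          calc iteratedDeriv (k + 1) (xi π) (1 / 2)
              = π.ε * ((-1) ^ (k + 1) * iteratedDeriv (k + 1) (xi π) (1 / 2)) := hc1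
            _ = -(((-1) ^ k * π.ε) * iteratedDeriv (k + 1) (xi π) (1 / 2)) := by ring
            _ = -iteratedDeriv (k + 1) (xi π) (1 / 2) := by rw [hcs, one_mul]
        exact self_eq_neg.1 h2
      · exact hcs
    · intro hcs
      have h2 : iteratedDeriv k (xi π) (1 / 2) = -iteratedDeriv k (xi π) (1 / 2) := by
        calc iteratedDeriv k (xi π) (1 / 2)
            = π.ε * ((-1) ^ k * iteratedDeriv k (xi π) (1 / 2)) := hc
          _ = ((-1) ^ k * π.ε) * iteratedDeriv k (xi π) (1 / 2) := by ring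
          _ = -iteratedDeriv k (xi π) (1 / 2) := by rw [hcs, neg_one_mul]
      exact self_eq_neg.1 h2

end Pool.Agent.Results.MP_21d687_nt.HighDerivatives
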