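import Mathlib
import Pool.Agent.U645.TL.T1
import Pool.Agent.Y19.QT.Fams

/-!
# Quadratic twists: the Lindelöf bound and the increments, or the means, over intervals of one length

For an L-function `L(s)` of degree `m` (for `π ⊗ χ_D`, `π` on `PGL₂` over a number field `F`, this is
`L^{S_∞}(π ⊗ χ_D, s)` and `m = 2 [F : ℚ]`) and `h > 0` let `Δ_h(t) = L(1/2 + i(t + h)) - L(1/2 + it)`.  In the
family of the quadratic twists of `π` the archimedean parameters are bounded (they take finitely many values) and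
only the conductor grows.  We prove:

* (inequality) For all `m`, `A` and `h > 0` there are `C` and `k₀` such that for all L-functions of degree `m`
  with archimedean parameters at most `A`, of all conductors and all real `T`,
  `|L(1/2 + iT)| ≤ C (1 + |T|)^4 max |Δ_h(T + kh)|`, the maximum over the integers `0 ≤ k ≤ k₀ (1 + |T|)`.
  There is no loss in the conductor.  For `T = 0`: the central value is at most `C` times the largest of
  a bounded number of the increments `L(1/2 + i(k+1)h) - L(1/2 + ikh)`.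
* (criterion) For every `κ ≥ 0` and every one `h ≠ 0` the following are equivalent (bounds uniform in the family,
  with polynomial dependence on `T`): `L(1/2 + iT, π ⊗ χ_D) = O(|D|^(κ + ε))`;  the same bound for `Δ_h(T)`;
  the same bound for the integrals of `L(1/2 + iu, π ⊗ χ_D)` over `T ≤ u ≤ T + h`.  At fixed heights:
  `L(1/2 + iT, π ⊗ χ_D) = O_T(|D|^(κ + ε))` for all `T` if and only if `Δ_h(T) = O_T(|D|^(κ + ε))` for all `T`.
* No hypothesis is needed for the quadratic twists of the elliptic curves over `ℚ` with `j = 0` or `j = 1728` and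
  of the twists of `X₀(11)` and `X₀(14)`; for other elliptic curves over `ℚ` only modularity of the twists.

In the aspect of the height `T` one length is not known to be enough (two lengths are, if their quotient is not
a Liouville number, see `MP_4e5e8a_nt.TwoLengths` and `MP_52e316_nt.TwoLengthsGLm`).

Proof.  On the critical line `L = Y conj L` with `|Y| = 1`, so
`(Y(t + h) - Y(t)) conj L(t + h) = Δ_h(t) - Y(t) conj Δ_h(t)`, and the same at the other end.  Hence
`|Y(t + 2h) conj Y(t + h) - Y(t + h) conj Y(t)| |L(t + h)| ≤ 2 |Δ_h(t)| + 2 |Δ_h(t + h)|`.  The first factor is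
the turn of the phase between two consecutive steps.  The conductor contributes to the phase a linear function, which
cancels in it, and what remains is the second difference of the phase of the gamma factors; it is not zero (for
large `t` it lies between a constant times `t^(-4)` and `1/2`), because the real part of the digamma function
is strictly increasing on vertical half lines.
-/

set_option autoImplicit false

open MeasureTheory

namespace Pool.Agent.Results.MP_21d687_nt.OneLength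

open Pool.Agent.Y19.QT (Twists Fam HasTwists TwistsModular)

/-- The data of an L-function of degree `m` over `ℚ`: the conductor `N`, the archimedean parameters `mu j` (the
factor at infinity is `∏ j, Γ_ℝ (s - mu j)`) and the L-function `f` without the factor at infinity. -/
structure Datum (m : ℕ) where
  N : ℕ
  mu : Fin m → ℂ
  f : ℂ → ℂ

/-- `N ≥ 1`, `Re (mu j) < 1/2` and the functional equation `Λ(s) = root N^(1/2-s) conj (Λ(1 - conj s))`,
`Λ(s) = f(s) ∏ j, Γ_ℝ (s - mu j)`, with `|root| = 1` (divided by the gamma factors of both sides). -/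
def Datum.FE {m : ℕ} (D : Datum m) : Prop :=
  0 < D.N ∧ (∀ j, (D.mu j).re < 1 / 2) ∧ ∃ root : ℂ, ‖root‖ = 1 ∧ ∀ s : ℂ,
    D.f s * ∏ j, (Complex.Gammaℝ (1 - s - (starRingEnd ℂ) (D.mu j)))⁻¹ =
      root * (D.N : ℂ) ^ (1 / 2 - s) * (starRingEnd ℂ) (D.f (1 - (starRingEnd ℂ) s)) *
        ∏ j, (Complex.Gammaℝ (s - D.mu j))⁻¹

/-- A family of L-functions (for instance `π ⊗ χ_D`) in which the archimedean parameters are bounded and the
conductor is polynomially bounded in `d i ≥ 1` (for instance `|D|`); with the classical properties: functional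
equation, the L-functions are entire, of finite order in the strip `-1/4 ≤ Re s ≤ 5/4`, and `O(N^ε)` for
`Re s ≥ 1 + ε` (Molteni's bound; for quadratic twists of a fixed `π` a consequence of the absolute convergence
of `L(s, π)`), uniformly in the family. -/
structure Family {ι : Type} {m : ℕ} (D : ι → Datum m) (d : ι → ℝ) : Prop where
  one_le : ∀ i, 1 ≤ d i
  bounded : ∃ A : ℝ, ∀ i j, ‖(D i).mu j‖ ≤ A
  conductor : ∃ B b : ℝ, ∀ i, ((D i).N : ℝ) ≤ B * d i ^ b
  fe : ∀ i, (D i).FE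
  entire : ∀ i, Differentiable ℂ (D i).f
  order : ∀ i, ∃ A : ℝ, ∀ s : ℂ, -1 / 4 ≤ s.re → s.re ≤ 5 / 4 →
    ‖(D i).f s‖ ≤ Real.exp (A * (1 + |s.im|) ^ A)
  molteni : ∀ ε : ℝ, 0 < ε → ∃ B : ℝ, ∀ (i : ι) (s : ℂ), 1 + ε ≤ s.re → ‖(D i).f s‖ ≤ B * (D i).N ^ ε

/-- the increment of length `h` at `t` -/
noncomputable def Δ (f : ℂ → ℂ) (h t : ℝ) : ℂ :=
  f (1 / 2 + ((t + h : ℝ) : ℂ) * Complex.I) - f (1 / 2 + (t : ℂ) * Complex.I)

/-- `|f(1/2 + iT)| ≤ C (1 + |T|)^4 M` if `|Δ_h(T + kh)| ≤ M` for all integers `0 ≤ k ≤ k₀ (1 + |T|)` -/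
def Inequality (C k₀ h : ℝ) (f : ℂ → ℂ) : Prop := ∀ T M : ℝ, 0 ≤ M →
  (∀ k : ℕ, (k : ℝ) ≤ k₀ * (1 + |T|) → ‖Δ f h (T + k * h)‖ ≤ M) →
    ‖f (1 / 2 + (T : ℂ) * Complex.I)‖ ≤ C * (1 + |T|) ^ 4 * M

variable {ι : Type}

/-- `L i (1/2 + iT) = O(d^(κ + ε))`, with polynomial dependence on `T` -/
def Values (L : ι → ℂ → ℂ) (d : ι → ℝ) (κ : ℝ) : Prop := ∃ a : ℝ, ∀ ε : ℝ, 0 < ε → ∃ B : ℝ,
  ∀ (i : ι) (T : ℝ), ‖L i (1 / 2 + (T : ℂ) * Complex.I)‖ ≤ B * (1 + |T|) ^ a * d i ^ (κ + ε)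

/-- `Δ_h(T) = O(d^(κ + ε))`, with polynomial dependence on `T` -/
def Increments (L : ι → ℂ → ℂ) (d : ι → ℝ) (h κ : ℝ) : Prop := ∃ a : ℝ, ∀ ε : ℝ, 0 < ε → ∃ B : ℝ,
  ∀ (i : ι) (T : ℝ), ‖Δ (L i) h T‖ ≤ B * (1 + |T|) ^ a * d i ^ (κ + ε)

/-- the integrals over the intervals of length `h` are `O(d^(κ + ε))`, with polynomial dependence on `T` -/
def Means (L : ι → ℂ → ℂ) (d : ι → ℝ) (h κ : ℝ) : Prop := ∃ a : ℝ, ∀ ε : ℝ, 0 < ε → ∃ B : ℝ,
  ∀ (i : ι) (T : ℝ), ‖∫ u in T..(T + h), L i (1 / 2 + (u : ℂ) * Complex.I)‖ ≤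
    B * (1 + |T|) ^ a * d i ^ (κ + ε)

/-- `L i (1/2 + iT) = O_T(d^(κ + ε))` for every fixed `T` -/
def FixedValues (L : ι → ℂ → ℂ) (d : ι → ℝ) (κ : ℝ) : Prop := ∀ T ε : ℝ, 0 < ε → ∃ B : ℝ,
  ∀ i : ι, ‖L i (1 / 2 + (T : ℂ) * Complex.I)‖ ≤ B * d i ^ (κ + ε)

/-- `Δ_h(T) = O_T(d^(κ + ε))` for every fixed `T` -/
def FixedIncrements (L : ι → ℂ → ℂ) (d : ι → ℝ) (h κ : ℝ) : Prop := ∀ T ε : ℝ, 0 < ε → ∃ B : ℝ,
  ∀ i : ι, ‖Δ (L i) h T‖ ≤ B * d i ^ (κ + ε)

/-- The criterion for a family. -/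
def Criterion (L : ι → ℂ → ℂ) (d : ι → ℝ) : Prop := ∀ h : ℝ, h ≠ 0 →
  (∀ κ : ℝ, Values L d κ ↔ Increments L d h κ) ∧ (∀ κ : ℝ, 0 ≤ κ → (Values L d κ ↔ Means L d h κ)) ∧
    ∀ κ : ℝ, FixedValues L d κ ↔ FixedIncrements L d h κ

section proofs

open Pool.Agent.U645.TL

variable {L : ι → ℂ → ℂ} {d : ι → ℝ}

lemma values_increments (hd : ∀ i, 1 ≤ d i) {κ : ℝ} (h : ℝ) (hV : Values L d κ) :
    Increments L d h κ := by
  obtain ⟨a, ha⟩ := hV
  refine ⟨max a 0, fun ε hε => ?_⟩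
  obtain ⟨B, hB⟩ := ha ε hε
  refine ⟨|B| * (1 + |h|) ^ (max a 0) + |B|, fun i T => ?_⟩
  have hq2 : 0 ≤ d i ^ (κ + ε) := Real.rpow_nonneg (by linarith [hd i]) _
  have hv : ∀ t : ℝ, ‖L i (1 / 2 + (t : ℂ) * Complex.I)‖ ≤ |B| * (1 + |t|) ^ (max a 0) * d i ^ (κ + ε) := by
    intro t
    refine (hB i t).trans ?_
    apply mul_le_mul_of_nonneg_right _ hq2
    calc B * (1 + |t|) ^ a ≤ |B| * (1 + |t|) ^ a :=
          mul_le_mul_of_nonneg_right (le_abs_self B) (Real.rpow_nonneg (by positivity) _)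
      _ ≤ _ := mul_le_mul_of_nonneg_left (Real.rpow_le_rpow_of_exponent_le
          (by linarith [abs_nonneg t]) (le_max_left _ _)) (abs_nonneg B)
  have h3 : (1 + |T + h|) ^ (max a 0) ≤ (1 + |h|) ^ (max a 0) * (1 + |T|) ^ (max a 0) := by
    rw [← Real.mul_rpow (by positivity) (by positivity)]
    apply Real.rpow_le_rpow (by positivity) _ (le_max_right _ _)
    have := abs_add_le T h
    nlinarith [abs_nonneg T, abs_nonneg h, mul_nonneg (abs_nonneg T) (abs_nonneg h)]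
  refine (norm_sub_le _ _).trans ((add_le_add (hv (T + h)) (hv T)).trans ?_)
  calc _ ≤ |B| * ((1 + |h|) ^ (max a 0) * (1 + |T|) ^ (max a 0)) * d i ^ (κ + ε) +
        |B| * (1 + |T|) ^ (max a 0) * d i ^ (κ + ε) := by
        apply add_le_add _ le_rfl
        apply mul_le_mul_of_nonneg_right _ hq2
        exact mul_le_mul_of_nonneg_left h3 (abs_nonneg B)
    _ = _ := by ring

/-- it is enough to consider positive lengths -/
lemma increments_neg (hd : ∀ i, 1 ≤ d i) {h κ : ℝ} (h1 : Increments L d h κ) : Increments L d (-h) κ :=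
  pb_neg (f := L) hd h1

lemma fixed_neg {h κ : ℝ} (h1 : FixedIncrements L d h κ) : FixedIncrements L d (-h) κ := by
  intro T ε hε
  obtain ⟨B, hB⟩ := h1 (T + -h) ε hε
  refine ⟨B, fun i => ?_⟩
  have h2 := hB i
  unfold Δ at h2 ⊢
  rw [show T + -h + h = T by ring] at h2
  rw [norm_sub_rev]
  exact h2

lemma increments_values (hd : ∀ i, 1 ≤ d i) {h κ C k₀ : ℝ} (hh : 0 < h) (hC : 0 ≤ C) (hk : 0 ≤ k₀)
    (hin : ∀ i, Inequality C k₀ h (L i)) (h1 : Increments L d h κ) : Values L d κ :=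
  pb_level (f := L) hd hh hC hk hin h1

lemma fixed_values {h κ C k₀ : ℝ} (hd : ∀ i, 1 ≤ d i) (hin : ∀ i, Inequality C k₀ h (L i))
    (h1 : FixedIncrements L d h κ) : FixedValues L d κ := by
  intro T ε hε
  choose B hB using fun k : ℕ => h1 (T + k * h) ε hε
  obtain ⟨n, hn⟩ : ∃ n : ℕ, n = ⌊k₀ * (1 + |T|)⌋₊ + 1 := ⟨_, rfl⟩
  refine ⟨C * (1 + |T|) ^ 4 * ∑ k ∈ Finset.range n, |B k|, fun i => ?_⟩
  have hq2 : 0 ≤ d i ^ (κ + ε) := Real.rpow_nonneg (by linarith [hd i]) _
  have h2 := hin i T ((∑ k ∈ Finset.range n, |B k|) * d i ^ (κ + ε))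
    (mul_nonneg (Finset.sum_nonneg fun k _ => abs_nonneg _) hq2) (by
      intro k hk
      refine (hB k i).trans (mul_le_mul_of_nonneg_right ?_ hq2)
      refine (le_abs_self _).trans ?_
      refine Finset.single_le_sum (f := fun k => |B k|) (fun k _ => abs_nonneg _) ?_
      rw [Finset.mem_range, hn]
      exact Nat.lt_succ_of_le (Nat.le_floor hk))
  refine h2.trans (le_of_eq ?_)
  ring

theorem criterion_of (hd : ∀ i, 1 ≤ d i) (H : TF0 L (fun i T => d i * (1 + |T|)))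
    (hin : ∀ h : ℝ, 0 < h → ∃ C k₀ : ℝ, 0 ≤ C ∧ 0 ≤ k₀ ∧ ∀ i, Inequality C k₀ h (L i)) :
    Criterion L d := by
  intro h hh
  have hVI : ∀ κ : ℝ, Values L d κ ↔ Increments L d h κ := by
    intro κ
    refine ⟨values_increments hd h, fun h1 => ?_⟩
    rcases lt_or_gt_of_ne hh with h0 | h0
    · obtain ⟨C, k₀, hC, hk, hi⟩ := hin (-h) (by linarith)
      exact increments_values hd (by linarith) hC hk hi (increments_neg hd h1)
    · obtain ⟨C, k₀, hC, hk, hi⟩ := hin h h0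
      exact increments_values hd h0 hC hk hi h1
  refine ⟨hVI, fun κ hκ => ?_, fun κ => ⟨fun h1 T ε hε => ?_, fun h1 => ?_⟩⟩
  · rw [hVI]
    exact (pb_mean_iff (f := L) hd H hκ h).symm
  · obtain ⟨B, hB⟩ := h1 (T + h) ε hε
    obtain ⟨B', hB'⟩ := h1 T ε hε
    refine ⟨B + B', fun i => (norm_sub_le _ _).trans ((add_le_add (hB i) (hB' i)).trans (le_of_eq ?_))⟩
    ring
  · rcases lt_or_gt_of_ne hh with h0 | h0
    · obtain ⟨C, k₀, hC, hk, hi⟩ := hin (-h) (by linarith)
      exact fixed_values hd hi (fixed_neg h1)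
    · obtain ⟨C, k₀, hC, hk, hi⟩ := hin h h0
      exact fixed_values hd hi h1

theorem ineq_datum {m : ℕ} {A h : ℝ} (hm : 1 ≤ m) (hh : 0 < h) : ∃ C k₀ : ℝ, 0 ≤ C ∧ 0 ≤ k₀ ∧
    ∀ D : Datum m, D.FE → (∀ j, ‖D.mu j‖ ≤ A) → Inequality C k₀ h D.f := by
  obtain ⟨C, k₀, hC, hk, h1⟩ := level_ineq hm (A := max A 0) (le_max_right _ _) hh
  refine ⟨C, k₀, hC, hk, fun D ⟨hN, hmu, root, hroot, hfe⟩ hA T M hM hΔ => ?_⟩
  exact h1 (D.N : ℝ) D.mu root D.f (by exact_mod_cast hN) hmu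
    (fun j => (hA j).trans (le_max_left _ _)) hroot hfe T M hM hΔ

theorem family_tf {m : ℕ} (hm : 1 ≤ m) {D : ι → Datum m} (H : Family D d) :
    TF0 (fun i => (D i).f) (fun i T => d i * (1 + |T|)) := by
  obtain ⟨A, hA⟩ := H.bounded
  obtain ⟨B, b, hB⟩ := H.conductor
  obtain ⟨P, hP⟩ : ∃ P : ℝ, P = (1 + max A 0) ^ m := ⟨_, rfl⟩
  have hP1 : 1 ≤ P := by rw [hP]; exact one_le_pow₀ (by linarith [le_max_right A 0])
  have hN1 : ∀ i, (1 : ℝ) ≤ (D i).N := fun i => by exact_mod_cast (H.fe i).1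
  have hprod1 : ∀ i, 1 ≤ ∏ j, (1 + ‖(D i).mu j‖) := fun i =>
    Finset.one_le_prod fun j _ => by linarith [norm_nonneg ((D i).mu j)]
  have hprod : ∀ i, ∏ j, (1 + ‖(D i).mu j‖) ≤ P := by
    intro i
    have := Finset.prod_le_prod (s := Finset.univ) (f := fun j => 1 + ‖(D i).mu j‖)
      (g := fun _ : Fin m => 1 + max A 0) (fun j _ => by positivity)
      (fun j _ => by linarith [hA i j, le_max_left A 0])
    rwa [Finset.prod_const, Finset.card_univ, Fintype.card_fin, ← hP] at this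
  have hC1 : ∀ i, 1 ≤ ((D i).N : ℝ) * ∏ j, (1 + ‖(D i).mu j‖) := fun i => by
    nlinarith [hN1 i, hprod1 i]
  have hG : GD m (fun i => (D i).N) (fun i => (D i).mu) (fun i => (D i).f)
      (fun i T => (1 + |T|) * ((D i).N * ∏ j, (1 + ‖(D i).mu j‖))) :=
    { hm := hm
      N_pos := fun i => (H.fe i).1
      mu_re := fun i => (H.fe i).2.1
      entire := H.entire
      order := H.order
      fe := fun i => (H.fe i).2.2
      molteni := by
        intro ε hε
        obtain ⟨B', hB'⟩ := H.molteni ε hε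
        refine ⟨|B'|, fun i s hs => (hB' i s hs).trans ?_⟩
        calc B' * ((D i).N : ℝ) ^ ε ≤ |B'| * ((D i).N : ℝ) ^ ε :=
              mul_le_mul_of_nonneg_right (le_abs_self _) (Real.rpow_nonneg (by linarith [hN1 i]) _)
          _ ≤ _ := by
              apply mul_le_mul_of_nonneg_left _ (abs_nonneg _)
              apply Real.rpow_le_rpow (by linarith [hN1 i]) _ hε.le
              nlinarith [hN1 i, hprod1 i]
      X1 := fun i T => by
        have := hC1 i
        have h2 := abs_nonneg T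
        nlinarith
      Xle := fun i T => le_rfl
      Xge := fun i T => by
        have := hC1 i
        have h2 : 0 ≤ (1 + |T|) * (((D i).N : ℝ) * ∏ j, (1 + ‖(D i).mu j‖)) := by positivity
        linarith
      Xsh := fun i t u => by
        have h1 := hC1 i
        have h2 : 1 + |t + u| ≤ (1 + |u|) * (1 + |t|) := by
          have := abs_add_le t u
          nlinarith [abs_nonneg t, abs_nonneg u, mul_nonneg (abs_nonneg t) (abs_nonneg u)]
        calc (1 + |t + u|) * (((D i).N : ℝ) * ∏ j, (1 + ‖(D i).mu j‖)) ≤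
              ((1 + |u|) * (1 + |t|)) * (((D i).N : ℝ) * ∏ j, (1 + ‖(D i).mu j‖)) :=
              mul_le_mul_of_nonneg_right h2 (by linarith)
          _ = _ := by ring }
  have hd := H.one_le
  refine TF0.mono hG.tf.to0 (B := max B 1 * P) (b := max b 1) ?_ (by positivity) ?_ ?_ ?_
  · nlinarith [le_max_right B 1]
  · intro i T
    have := hd i
    nlinarith [abs_nonneg T]
  · exact xsh hd
  · intro i T
    have h1 : ((D i).N : ℝ) ≤ max B 1 * d i ^ (max b 1) := by
      refine (hB i).trans ?_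
      calc B * d i ^ b ≤ max B 1 * d i ^ b :=
            mul_le_mul_of_nonneg_right (le_max_left _ _) (Real.rpow_nonneg (by linarith [hd i]) _)
        _ ≤ _ := mul_le_mul_of_nonneg_left
            (Real.rpow_le_rpow_of_exponent_le (hd i) (le_max_left _ _)) (by positivity)
    have h2 : 1 + |T| ≤ (1 + |T|) ^ (max b 1) := by
      have := Real.rpow_le_rpow_of_exponent_le (x := 1 + |T|) (by linarith [abs_nonneg T])
        (le_max_right b 1)
      rwa [Real.rpow_one] at this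
    have hdp : 0 ≤ d i ^ (max b 1) := Real.rpow_nonneg (by linarith [hd i]) _
    rw [Real.mul_rpow (by linarith [hd i]) (by positivity)]
    calc (1 + |T|) * (((D i).N : ℝ) * ∏ j, (1 + ‖(D i).mu j‖)) ≤
          (1 + |T|) ^ (max b 1) * ((max B 1 * d i ^ (max b 1)) * P) := by
          apply mul_le_mul h2 _ (by positivity) (by positivity)
          exact mul_le_mul h1 (hprod i) (by linarith [hprod1 i]) (by positivity)
      _ = _ := by ring

end proofs

open Pool.Agent.U645.TL in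
theorem result :
    (∀ (m : ℕ) (A h : ℝ), 1 ≤ m → 0 < h → ∃ C k₀ : ℝ, ∀ D : Datum m, D.FE →
      (∀ j, ‖D.mu j‖ ≤ A) → Inequality C k₀ h D.f) ∧
    (∀ (ι : Type) (m : ℕ) (D : ι → Datum m) (d : ι → ℝ), 1 ≤ m → Family D d →
      Criterion (fun i => (D i).f) d) ∧
    (∀ h : ℝ, 0 < h → ∃ C k₀ : ℝ, ∀ (Q : ℕ) (lam : ℕ → ℝ) (T : Twists Q lam) (d : ℤ), Squarefree d →
      Inequality C k₀ h (T.ell d)) ∧
    (∀ (Q : ℕ) (lam : ℕ → ℝ) (T : Twists Q lam),
      Criterion (fun (d : {d : ℤ // Squarefree d}) => T.ell d.1) (fun d => |(d.1 : ℝ)|)) ∧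
    (∀ a b : ℤ, Fam a b → HasTwists a b) ∧
    ∀ a b : ℤ, 4 * a ^ 3 + 27 * b ^ 2 ≠ 0 → TwistsModular a b → HasTwists a b := by
  refine ⟨?_, ?_, ?_, ?_, fun a b h => h.data.1,
    fun a b hab h => (Pool.Agent.Y812.QTN2.of_twistsModular hab h).1⟩
  · intro m A h hm hh
    obtain ⟨C, k₀, _, _, h1⟩ := ineq_datum (A := A) hm hh
    exact ⟨C, k₀, h1⟩
  · intro ι m D d hm H
    obtain ⟨A, hA⟩ := H.bounded
    refine criterion_of H.one_le (family_tf hm H) fun h hh => ?_
    obtain ⟨C, k₀, hC, hk, h1⟩ := ineq_datum (A := A) hm hh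
    exact ⟨C, k₀, hC, hk, fun i => h1 (D i) (H.fe i) (hA i)⟩
  · intro h hh
    obtain ⟨C, k₀, _, _, h1⟩ := tw_ineq hh
    exact ⟨C, k₀, h1⟩
  · intro Q lam T
    refine criterion_of (fun d => Pool.Agent.Y703.QT8.one_le_abs d.2) (tw_tf0 T) fun h hh => ?_
    obtain ⟨C, k₀, hC, hk, h1⟩ := tw_ineq hh
    exact ⟨C, k₀, hC, hk, fun d => h1 Q lam T d.1 d.2⟩

end Pool.Agent.Results.MP_21d687_nt.OneLength
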