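import Pool.Agent.U857.AW.Main

/-!
# The Lindelöf bound for quadratic twists, near the values of mixed functions on arbitrary sets

Let `π_1, …, π_n` be the cuspidal representations of `PGL_2` over `ℚ` which belong to holomorphic newforms (of weight `2`, `4`, `6`, …),
and `L_j(D) = L(1/2, π_j ⊗ χ_D)`. By Waldspurger's theorem (1981; explicit forms by Kohnen and Zagier, Baruch and Mao) the values for
squarefree `D`, of both signs, are given by the squares of the coefficients of finitely many cusp forms of half-integral
weight `lam / 2`, `lam - 1` the weight of the newform (`CentralValues`: an upper bound is enough). Let `0 < β < 1`, `κ ≥ 0`, `k - β + k κ < δ ≤ k`.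

For almost all pairs `(u, v)` of elements of ARBITRARY finite sets `A`, `B` with at least `X ^ δ` elements, the bound
`|L_j(D_i)| ≤ C |D_i| ^ β` of Q1 holds for all `j` and for ALL squarefree `D_1, …, D_k` (positive or negative) for which `(|D_1|, …, |D_k|)` is at
a distance of at most `X ^ κ` from `H(u, v)`, where `H` is any function of two variables with values in `[-X, X] ^ k` and with
few coincidences (`RareV`), for instance `X = p` and the least residues modulo `p` of the `k` coordinates of
`F(u, v) + g(u) + h(v)` in the field of `p ^ k` elements, `F` any polynomial of bounded degree with a monomial which contains both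
variables, `g` and `h` arbitrary functions.

Proof: `|f(z)| ≤ C y ^ (-w/2)` for cusp forms `f` of half-integral weight `w`, as `f ^ 4` is a cusp form of weight `4 w`
(`Pool/Agent/U857/AW/Cusp.lean`); Bessel's inequality gives `∑ |a(n)| ^ 2 ≤ C X ^ w`, so that the bound fails for at most `C X ^ (1 - β)` of
the `D` with `|D| ≤ X` (`Count.lean`). The sets `A`, `B` and the functions `g`, `h` are arbitrary, and a vector may be taken by very many
pairs; the inequality of Cauchy and Schwarz, and for most `u, u'` the difference of the values at `(u, v)` and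
`(u', v)` is small for few `v` (`Pool/Agent/U449/BV/V.lean`).
-/

set_option autoImplicit false

namespace Pool.Agent.Results.MP_21d687_nt.TwistsNearMixedValues

open Pool.Agent.U857.AW Pool.Agent.U857.AF Pool.Agent.U449.BV

/-- **Theorem.** For finitely many families `L j` of central values of quadratic twists (`CentralValues`: Waldspurger's
formula): the bound `|L(D)| ≤ C |D| ^ β` at all squarefree `D` near almost all values of vector functions of two variables with
few coincidences on arbitrary sets (`OnProductsV`), and near the coordinates of `F(u, v) + g(u) + h(v)` in a finite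
field, for almost all pairs `(u, v)` of two arbitrary subsets with at least `p ^ δ` elements. -/
theorem result : ∀ (k n : ℕ), 1 ≤ k → ∀ (lam : Fin n → ℕ) (L : Fin n → ℤ → ℂ), (∀ j, 2 ≤ lam j) →
    (∀ j, CentralValues (lam j) (L j)) → ∀ β κ : ℝ, 0 < β → β < 1 → 0 ≤ κ → ∃ C : ℝ,
      OnProductsV k ((k : ℝ) - β + k * κ) κ (NearTwists L β C) ∧
      ∀ δ : ℝ, (k : ℝ) - β + k * κ < δ → δ ≤ k → ∀ E : ℕ, ∃ ρ : ℝ, 0 < ρ ∧ ∃ p₀ : ℕ,
        ∀ (p : ℕ) [Fact p.Prime], p₀ ≤ p → ∀ (K : Type) [Field K] [Algebra (ZMod p) K]
          (b : Module.Basis (Fin k) (ZMod p) K) (F : MvPolynomial (Fin 2) K),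
          F.totalDegree ≤ E → (∃ m ∈ F.support, m 0 ≠ 0 ∧ m 1 ≠ 0) →
          ∀ (g h : K → K) (A B : Finset K), (p : ℝ) ^ δ ≤ A.card → (p : ℝ) ^ δ ≤ B.card →
            ({z : K × K | z.1 ∈ A ∧ z.2 ∈ B ∧ ¬ NearTwists L β C ((p : ℝ) ^ κ)
              (fun i => (((b.repr (MvPolynomial.eval ![z.1, z.2] F + g z.1 + h z.2) i).val : ℕ) : ℝ))}.ncard : ℝ) ≤
              (p : ℝ) ^ (-ρ) * (A.card * B.card) := by
  intro k n hk lam L hlam hL β κ hβ hβ1 hκ
  obtain ⟨C, h1⟩ := nearTwists (k := k) hk hlam hL hβ hβ1 hκ
  exact ⟨C, h1, field h1⟩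

end Pool.Agent.Results.MP_21d687_nt.TwistsNearMixedValues
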